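import Pool.Agent.Work.MP_91e6de_nt.BM.All

set_option autoImplicit false

/-!
# The Kawaguchi-Silverman conjecture for finite polynomial maps of the plane whose iterates have
at least two base points at infinity
-/

open MvPolynomial Filter Topology

namespace Pool.Agent.Results.MP_91e6de_nt.FiniteTwoBasePoints

variable {K : Type} [Field K]

/-- the map of the affine plane with coordinates `f 0`, `f 1` -/
noncomputable def toMap (f : Fin 2 → MvPolynomial (Fin 2) K) (P : Fin 2 → K) : Fin 2 → K :=
  fun i => eval P (f i)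

/-- the coordinates of the `n`-th iterate of the map with coordinates `f 0`, `f 1`,
as polynomials -/
noncomputable def iter (f : Fin 2 → MvPolynomial (Fin 2) K) : ℕ → Fin 2 → MvPolynomial (Fin 2) K
  | 0 => fun i => X i
  | n + 1 => fun i => aeval (iter f n) (f i)

/-- the degree of the `n`-th iterate -/
noncomputable def degIter (f : Fin 2 → MvPolynomial (Fin 2) K) (n : ℕ) : ℕ :=
  max (iter f n 0).totalDegree (iter f n 1).totalDegree

/-- the map with coordinates `f 0`, `f 1` is finite: `K[x, y]` is a finite module over its subring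
`K[f 0, f 1]` -/
def IsFinite (f : Fin 2 → MvPolynomial (Fin 2) K) : Prop :=
  (aeval f : MvPolynomial (Fin 2) K →ₐ[K] MvPolynomial (Fin 2) K).toRingHom.Finite

/-- the point `[v 0 : v 1 : 0]` at infinity is a base point of an iterate: for some `j` the
homogeneous components of degree `degIter f j` of both coordinates of the `j`-th iterate vanish
at `v` -/
def IsBasePoint (f : Fin 2 → MvPolynomial (Fin 2) K) (v : Fin 2 → K) : Prop :=
  v ≠ 0 ∧ ∃ j : ℕ, ∀ i : Fin 2, eval v (homogeneousComponent (degIter f j) (iter f j i)) = 0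

/-- the absolute logarithmic Weil height of the point `[P 0 : P 1 : 1]` -/
noncomputable def height [NumberField K] (P : Fin 2 → K) : ℝ :=
  Height.logHeight ![P 0, P 1, 1] / Module.finrank ℚ K

open Pool.Agent.Work.MP_91e6de_nt.BL in
theorem iter_eq (f : Fin 2 → MvPolynomial (Fin 2) K) (n : ℕ) : iter f n = it f n := by
  induction n with
  | zero => rfl
  | succ n ih =>
    funext i
    show (aeval (iter f n) (f i) : MvPolynomial (Fin 2) K) = aeval (it f n) (f i)
    rw [ih]

open Pool.Agent.Work.MP_91e6de_nt.BL in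
theorem degIter_eq (f : Fin 2 → MvPolynomial (Fin 2) K) (n : ℕ) : degIter f n = dg f n := by
  unfold degIter dg
  rw [iter_eq]

open Pool.Agent.Work.MP_91e6de_nt.BL in
theorem iterate_eq (f : Fin 2 → MvPolynomial (Fin 2) K) (P : Fin 2 → K) (n : ℕ) :
    (toMap f)^[n] P = orb f P n := by
  induction n with
  | zero => rfl
  | succ n ih =>
    rw [Function.iterate_succ_apply', ih]
    rfl

/-- evaluation of the iterates (sanity check) -/
theorem iter_eval (f : Fin 2 → MvPolynomial (Fin 2) K) (P : Fin 2 → K) (n : ℕ) (i : Fin 2) :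
    eval P (iter f n i) = (toMap f)^[n] P i := by
  rw [iterate_eq, iter_eq]
  have h := (Pool.Agent.Work.MP_91e6de_nt.BL.pr_It K f).2 P 0 n i
  rw [zero_add] at h
  exact h

/-- Let `f` be a finite polynomial map of the affine plane over a number field `K`, of degree
`d ≥ 2`, with `deg f ^ n = d ^ n` for all `n`, such that two different `K`-rational points of the
line at infinity are base points of iterates of `f`. Then `deg (f ^ n) ^ (1 / n)` and
`h (f ^ n (P)) ^ (1 / n)` tend to `d` for every `K`-rational point `P` with Zariski dense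
orbit. -/
theorem result [NumberField K] (f : Fin 2 → MvPolynomial (Fin 2) K) (d : ℕ) (hd : 2 ≤ d)
    (hdeg : ∀ n, degIter f n = d ^ n) (hfin : IsFinite f)
    (v v' : Fin 2 → K) (hv : IsBasePoint f v) (hv' : IsBasePoint f v')
    (hne : v 0 * v' 1 ≠ v 1 * v' 0) (P : Fin 2 → K)
    (hdense : ∀ R : MvPolynomial (Fin 2) K, (∀ n : ℕ, eval ((toMap f)^[n] P) R = 0) → R = 0) :
    Tendsto (fun n : ℕ => (degIter f n : ℝ) ^ ((1 : ℝ) / n)) atTop (𝓝 d) ∧
    Tendsto (fun n : ℕ => height ((toMap f)^[n] P) ^ ((1 : ℝ) / n)) atTop (𝓝 d) := by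
  have hdg : ∀ n, Pool.Agent.Work.MP_91e6de_nt.BL.dg f n = d ^ n := fun n => by
    rw [← degIter_eq]
    exact hdeg n
  constructor
  · refine tendsto_const_nhds.congr' ?_
    filter_upwards [eventually_gt_atTop 0] with n hn
    rw [hdeg]
    push_cast
    rw [← Real.rpow_natCast, ← Real.rpow_mul (by positivity)]
    have h0 : (n : ℝ) ≠ 0 := by exact_mod_cast hn.ne'
    rw [mul_one_div, div_self h0, Real.rpow_one]
  · have hb : ∀ w : Fin 2 → K, IsBasePoint f w → ∃ j, ∀ i, eval w (homogeneousComponent (d ^ j)
        (Pool.Agent.Work.MP_91e6de_nt.BL.it f j i)) = 0 := by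
      rintro w ⟨-, j, hj⟩
      refine ⟨j, fun i => ?_⟩
      rw [← iter_eq, ← hdeg]
      exact hj i
    have h := Pool.Agent.Work.MP_91e6de_nt.BM.all_Main3 K f d ![v, v'] P hd hdg
      (fun i => RingHom.Finite.to_isIntegral hfin (X i))
      (by
        show v 0 * v' 1 - v 1 * v' 0 ≠ 0
        exact sub_ne_zero.mpr hne)
      (fun l => by
        fin_cases l
        · exact hb v hv
        · exact hb v' hv')
      (fun R hR => hdense R fun n => by rw [iterate_eq]; exact hR n)
    refine h.congr fun n => ?_
    rw [iterate_eq]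
    rfl

end Pool.Agent.Results.MP_91e6de_nt.FiniteTwoBasePoints
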