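import Pool.Agent.Work.MP_91e6de_nt.BL.All

set_option autoImplicit false

/-!
# The Kawaguchi-Silverman conjecture for the polynomial maps of the plane whose iterates have
infinitely many base points at infinity
-/

open MvPolynomial Filter Topology

namespace Pool.Agent.Results.MP_91e6de_nt.InfiniteBasePoints

variable {K : Type} [Field K]

/-- the map of the affine plane with coordinates `f 0`, `f 1` -/
noncomputable def toMap (f : Fin 2 → MvPolynomial (Fin 2) K) (P : Fin 2 → K) : Fin 2 → K :=
  fun i => eval P (f i)

/-- the coordinates of the `n`-th iterate of the map with coordinates `f 0`, `f 1`,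
as polynomials -/
noncomputable def iter (f : Fin 2 → MvPolynomial (Fin 2) K) : ℕ → Fin 2 → MvPolynomial (Fin 2) K
  | 0 => fun i => X i
  | n + 1 => fun i => aeval (iter f n) (f i)

/-- the degree of the `n`-th iterate -/
noncomputable def degIter (f : Fin 2 → MvPolynomial (Fin 2) K) (n : ℕ) : ℕ :=
  max (iter f n 0).totalDegree (iter f n 1).totalDegree

/-- the base points at infinity `[z : 1 : 0]` of the iterates: for some `j` the homogeneous
components of degree `degIter f j` of both coordinates of the `j`-th iterate vanish at `(z, 1)` -/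
def basePoints (f : Fin 2 → MvPolynomial (Fin 2) K) : Set (AlgebraicClosure K) :=
  {z | ∃ j : ℕ, ∀ i : Fin 2,
    (aeval ![z, 1] (homogeneousComponent (degIter f j) (iter f j i)) : AlgebraicClosure K) = 0}

/-- the absolute logarithmic Weil height of the point `[P 0 : P 1 : 1]` -/
noncomputable def height [NumberField K] (P : Fin 2 → K) : ℝ :=
  Height.logHeight ![P 0, P 1, 1] / Module.finrank ℚ K

open Pool.Agent.Work.MP_91e6de_nt.BL in
theorem iter_eq (f : Fin 2 → MvPolynomial (Fin 2) K) (n : ℕ) : iter f n = it f n := by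
  induction n with
  | zero => rfl
  | succ n ih =>
    funext i
    show (aeval (iter f n) (f i) : MvPolynomial (Fin 2) K) = aeval (it f n) (f i)
    rw [ih]

open Pool.Agent.Work.MP_91e6de_nt.BL in
theorem degIter_eq (f : Fin 2 → MvPolynomial (Fin 2) K) (n : ℕ) : degIter f n = dg f n := by
  unfold degIter dg
  rw [iter_eq]

open Pool.Agent.Work.MP_91e6de_nt.BL in
theorem iterate_eq (f : Fin 2 → MvPolynomial (Fin 2) K) (P : Fin 2 → K) (n : ℕ) :
    (toMap f)^[n] P = orb f P n := by
  induction n with
  | zero => rfl
  | succ n ih =>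
    rw [Function.iterate_succ_apply', ih]
    rfl

/-- evaluation of the iterates (sanity check) -/
theorem iter_eval (f : Fin 2 → MvPolynomial (Fin 2) K) (P : Fin 2 → K) (n : ℕ) (i : Fin 2) :
    eval P (iter f n i) = (toMap f)^[n] P i := by
  rw [iterate_eq, iter_eq]
  have h := (Pool.Agent.Work.MP_91e6de_nt.BL.pr_It K f).2 P 0 n i
  rw [zero_add] at h
  exact h

/-- Let `f` be a polynomial map of the affine plane over a number field `K`, of degree `d ≥ 2`,
with `deg f ^ n = d ^ n` for all `n`, whose iterates have infinitely many base points on the line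
at infinity. Then `deg (f ^ n) ^ (1 / n)` and `h (f ^ n (P)) ^ (1 / n)` tend to `d` for every
`K`-rational point `P` with Zariski dense orbit. -/
theorem result [NumberField K] (f : Fin 2 → MvPolynomial (Fin 2) K) (d : ℕ) (hd : 2 ≤ d)
    (hdeg : ∀ n, degIter f n = d ^ n) (hbase : (basePoints f).Infinite)
    (P : Fin 2 → K)
    (hdense : ∀ R : MvPolynomial (Fin 2) K, (∀ n : ℕ, eval ((toMap f)^[n] P) R = 0) → R = 0) :
    Tendsto (fun n : ℕ => (degIter f n : ℝ) ^ ((1 : ℝ) / n)) atTop (𝓝 d) ∧
    Tendsto (fun n : ℕ => height ((toMap f)^[n] P) ^ ((1 : ℝ) / n)) atTop (𝓝 d) := by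
  have hdg : ∀ n, Pool.Agent.Work.MP_91e6de_nt.BL.dg f n = d ^ n := fun n => by
    rw [← degIter_eq]
    exact hdeg n
  have hB : Pool.Agent.Work.MP_91e6de_nt.BL.Bases f d := by
    refine Pool.Agent.Work.MP_91e6de_nt.BL.all_BF K f d (by omega) hdg ?_
    have e : {z : AlgebraicClosure K | ∃ j, ∀ i : Fin 2, (aeval ![z, 1]
        (homogeneousComponent (d ^ j) (Pool.Agent.Work.MP_91e6de_nt.BL.it f j i)) :
          AlgebraicClosure K) = 0} = basePoints f := by
      unfold basePoints
      refine Set.ext fun z => ?_
      simp only [Set.mem_ofPred_eq, hdeg, iter_eq]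
    rw [e]
    exact hbase
  constructor
  · refine tendsto_const_nhds.congr' ?_
    filter_upwards [eventually_gt_atTop 0] with n hn
    rw [hdeg]
    push_cast
    rw [← Real.rpow_natCast, ← Real.rpow_mul (by positivity)]
    have h0 : (n : ℝ) ≠ 0 := by exact_mod_cast hn.ne'
    rw [mul_one_div, div_self h0, Real.rpow_one]
  · have h := Pool.Agent.Work.MP_91e6de_nt.BL.all_Main K f d P hd hdg hB (fun R hR => hdense R
      fun n => by rw [iterate_eq]; exact hR n)
    refine h.congr fun n => ?_
    rw [iterate_eq]
    rfl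

end Pool.Agent.Results.MP_91e6de_nt.InfiniteBasePoints
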