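import Mathlib
import Pool.Agent.Work.MP_91e6de_nt.DMR.All

set_option autoImplicit false

/-!
# A power lower bound for the heights along dense orbits of rational self-maps of projective
varieties

`I` is the ideal of a projective variety `X ⊆ ℙ^r` over a number field `K`; a rational self-map of
`X` is given by `r + 1` forms of the same degree, not all of them zero on `X`.
-/

open MvPolynomial Filter Topology

namespace Pool.Agent.Results.MP_91e6de_nt.PowerGap

section

variable {r : ℕ} {K : Type} [Field K]

/-- `I` is the homogeneous prime ideal of a (nonempty, irreducible) projective variety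
`X ⊆ ℙ^r`. -/
structure IsProjVariety (I : Ideal (MvPolynomial (Fin (r + 1)) K)) : Prop where
  prime : I.IsPrime
  homogeneous : ∀ G ∈ I, ∀ j, homogeneousComponent j G ∈ I
  nonempty : ∃ i, X i ∉ I

/-- The forms `F` of degree `e` define a rational self-map of `X`: not all of them vanish on `X`,
and `X` is mapped to itself. -/
structure IsRationalSelfMap (I : Ideal (MvPolynomial (Fin (r + 1)) K))
    (F : Fin (r + 1) → MvPolynomial (Fin (r + 1)) K) (e : ℕ) : Prop where
  form : ∀ i, (F i).IsHomogeneous e
  ne : ∃ i, F i ∉ I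
  maps : ∀ G ∈ I, aeval F G ∈ I

/-- The tuples `F` and `G` are proportional on `X`: where both do not vanish, they define the same
map on `X`. -/
def Same (I : Ideal (MvPolynomial (Fin (r + 1)) K))
    (F G : Fin (r + 1) → MvPolynomial (Fin (r + 1)) K) : Prop :=
  ∀ i j, G i * F j - G j * F i ∈ I

/-- The iterates as tuples of forms: `iter F n = F ∘ F ∘ ... ∘ F` (not reduced). -/
noncomputable def iter (F : Fin (r + 1) → MvPolynomial (Fin (r + 1)) K) :
    ℕ → Fin (r + 1) → MvPolynomial (Fin (r + 1)) K
  | 0 => fun i => X i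
  | n + 1 => fun i => aeval (iter F n) (F i)

/-- The degree of the `n`-th iterate on `X`: the smallest degree of a tuple of forms, not all of
them zero on `X`, which defines on `X` the same map as `iter F n`. -/
noncomputable def degIter (I : Ideal (MvPolynomial (Fin (r + 1)) K))
    (F : Fin (r + 1) → MvPolynomial (Fin (r + 1)) K) (n : ℕ) : ℕ :=
  sInf {D | ∃ G : Fin (r + 1) → MvPolynomial (Fin (r + 1)) K, (∃ i, G i ∉ I) ∧
    (∀ i, (G i).IsHomogeneous D) ∧ Same I (iter F n) G}

/-- `P 0, P 1, ...` is the orbit of the point `P 0` of `X`, all iterates being defined: at every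
`P n` some tuple of forms which defines on `X` the same map as `F` does not vanish, and its value
is `P (n + 1)` (homogeneous coordinates). -/
structure IsOrbit (I : Ideal (MvPolynomial (Fin (r + 1)) K))
    (F : Fin (r + 1) → MvPolynomial (Fin (r + 1)) K) (P : ℕ → Fin (r + 1) → K) : Prop where
  on : ∀ n, ∀ G ∈ I, aeval (P n) G = 0
  ne : ∀ n, P n ≠ 0
  step : ∀ n, ∃ (t : ℕ) (G : Fin (r + 1) → MvPolynomial (Fin (r + 1)) K),
    (∀ i, (G i).IsHomogeneous t) ∧ Same I F G ∧ ∀ i, P (n + 1) i = aeval (P n) (G i)

/-- The sequence `P n` of points of `X` is Zariski dense in `X`. -/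
def DenseIn (I : Ideal (MvPolynomial (Fin (r + 1)) K)) (P : ℕ → Fin (r + 1) → K) : Prop :=
  ∀ (t : ℕ) (G : MvPolynomial (Fin (r + 1)) K), G.IsHomogeneous t →
    (∀ n, aeval (P n) G = 0) → G ∈ I

/-- The absolute logarithmic Weil height. -/
noncomputable def height [NumberField K] (P : Fin (r + 1) → K) : ℝ :=
  Height.logHeight P / Module.finrank ℚ K

open Pool.Agent.Work.MP_91e6de_nt.DMR in
theorem iter_eq (F : Fin (r + 1) → MvPolynomial (Fin (r + 1)) K) (n : ℕ) :
    iter F n = itF F n := by
  induction n with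
  | zero => rfl
  | succ n ih =>
    funext i
    simp only [iter, itF, ih]

end

/-- Let `F` be a rational self-map of the projective variety `X` (with ideal `I`) over a number
field whose dynamical degree `δ` is larger than `1`. There is an exponent `η > 0`, and for every
`C` a number `N0`, such that for every `K`-point with Zariski dense orbit and all `N ≥ N0`, among
any `N + 1` consecutive points of the orbit there is one of height `> C N ^ η`. -/
theorem result (r : ℕ) (K : Type) [Field K] [NumberField K]
    (I : Ideal (MvPolynomial (Fin (r + 1)) K)) (hI : IsProjVariety I)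
    (F : Fin (r + 1) → MvPolynomial (Fin (r + 1)) K) (e : ℕ) (hF : IsRationalSelfMap I F e)
    (δ : ℝ) (hδ : Tendsto (fun n : ℕ => (degIter I F n : ℝ) ^ ((1 : ℝ) / n)) atTop (𝓝 δ))
    (h1 : 1 < δ) :
    ∃ η : ℝ, 0 < η ∧ ∀ C : ℝ, ∃ N0 : ℕ, ∀ P : ℕ → Fin (r + 1) → K, IsOrbit I F P →
      DenseIn I P → ∀ M N : ℕ, N0 ≤ N →
        ∃ n, M ≤ n ∧ n ≤ M + N ∧ C * (N : ℝ) ^ η < height (P n) := by
  have e1 : ∀ n, degIter I F n = Pool.Agent.Work.MP_91e6de_nt.DMR.dgX I F n := by
    intro n
    simp only [degIter, Same, Pool.Agent.Work.MP_91e6de_nt.DMR.dgX, iter_eq]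
  simp only [e1] at hδ
  obtain ⟨η, hη, h⟩ := Pool.Agent.Work.MP_91e6de_nt.DMR.all_ThAXw r K I F e δ hI.prime
    hI.homogeneous hI.nonempty hF.form hF.ne hF.maps hδ h1
  refine ⟨η, hη, fun C => ?_⟩
  obtain ⟨N0, h⟩ := h C
  exact ⟨N0, fun P hP hd M N hN => h P hP.ne hP.on hP.step hd M N hN⟩

end Pool.Agent.Results.MP_91e6de_nt.PowerGap
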