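import Mathlib
import Pool.Agent.Work.MP_91e6de_nt.DMR.All

set_option autoImplicit false

/-!
# The Kawaguchi-Silverman conjecture for families of endomorphisms of projective space over the
translation of the affine line

The definitions are in `Pool.Agent.Work.MP_91e6de_nt.KS.Defs`.
-/

open MvPolynomial Filter Topology

namespace Pool.Agent.Results.MP_91e6de_nt.TranslationFamilies

open Pool.Agent.Work.MP_91e6de_nt.KS

/-- Let `f (x, y) = (x + b, F (x, y))`, a rational self-map of `ℙ¹ × ℙ^m` over a number field `K`,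
`b ≠ 0`, where `F` consists of forms in `y` of degree `d ≥ 2` with coefficients in `K[x]` which
have no common zero for generic `x` (for generic `x`, `F (x, ·)` is an endomorphism of `ℙ^m`).
The dynamical degree of `f` is `d`. For every `K`-point all iterates of which are defined the
arithmetic degree exists and is `d` or `1`; it is `d` if the orbit is Zariski dense; and if it is
not `d`, then the heights along the orbit are `O (log n)` and the orbit lies in a closed subset of
relative dimension zero. -/
theorem result (m : ℕ) (hm : 1 ≤ m) (K : Type) [Field K] [NumberField K] (d : ℕ) (hd : 2 ≤ d)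
    (b : K) (hb : b ≠ 0) (F : Fin (m + 1) → MvPolynomial (Fin (m + 1)) (Polynomial K))
    (hF : ∀ i, (F i).IsHomogeneous d) (hZ : NoCommonZero F) :
    Tendsto (fun n : ℕ => (degIter b F n : ℝ) ^ ((1 : ℝ) / n)) atTop (𝓝 d) ∧
    ∀ (x : ℕ → K) (y : ℕ → Fin (m + 1) → K), IsOrbit b F x y →
      (DenseSeq x y →
        Tendsto (fun n : ℕ => height (x n) (y n) ^ ((1 : ℝ) / n)) atTop (𝓝 d)) ∧
      (Tendsto (fun n : ℕ => height (x n) (y n) ^ ((1 : ℝ) / n)) atTop (𝓝 d) ∨
        Tendsto (fun n : ℕ => height (x n) (y n) ^ ((1 : ℝ) / n)) atTop (𝓝 1) ∧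
        (∃ C : ℝ, ∀ n : ℕ, height (x n) (y n) ≤ C * Real.log (n + 2)) ∧ InCurve x y) :=
  Pool.Agent.Work.MP_91e6de_nt.DMR.all_XB m K d b F hm hd hb hF hZ

end Pool.Agent.Results.MP_91e6de_nt.TranslationFamilies
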